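import Mathlib
import Pool.Agent.P.MP_aedb6c_co.Defs
import Pool.Agent.P.MP_aedb6c_co.Main

open Pool.Agent.P.MP_aedb6c_co

namespace Pool.Agent.Results.MP_aedb6c_co.Maximisers

theorem result (n k : ℕ) (hn : 3 ≤ n)
    (hk : IsLeast {j : ℕ | 3 * n ≤ 6 * j ^ 2 + 2 * j + 1} k)
    (V : Type) [Fintype V] (hV : Fintype.card V = n) (G : SimpleGraph V) :
    (G.Connected ∧ ∀ (W : Type) [Fintype W], Fintype.card W = n →
        ∀ H : SimpleGraph W, H.Connected → ratio H ≤ ratio G) ↔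
      ((n ∉ ({4, 10, 21, 54, 134} : Finset ℕ) ∧
          Nonempty (G ≃g Bug (n + 2 - 2 * k) (k - 1) (k - 1))) ∨
        (n ∈ ({4, 5, 10, 11, 21, 54, 134} : Finset ℕ) ∧
          (Nonempty (G ≃g Bug (n + 3 - 2 * k) (k - 2) (k - 1)) ∨
            ∃ a b : ℕ, 2 ≤ a ∧ 2 ≤ b ∧ a + b + 2 * (k - 1) = n ∧
              Nonempty (G ≃g Twin a b (k - 1))))) := by
  subst hV
  rw [main0 hn hk]
  constructor
  · rintro ⟨D, h0, hc⟩
    obtain ⟨a1, a2, -⟩ := ari hn hk h0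
    rcases h0 with ⟨h1, rfl⟩ | ⟨h1, h2⟩
    · exact Or.inl ⟨h1, (cen_even (by omega) a2).1 hc⟩
    · obtain ⟨m, rfl⟩ : ∃ m, k = m + 1 := ⟨k - 1, by omega⟩
      obtain rfl : D = 2 * m + 1 := by omega
      have := (cen_odd (by omega) a2).1 hc
      rw [show Fintype.card V + 1 - 2 * m = Fintype.card V + 3 - 2 * (m + 1) by omega] at this
      exact Or.inr ⟨h1, this⟩
  · rintro (⟨h1, h2⟩ | ⟨h1, h2⟩)
    · have h0 : Opt (Fintype.card V) k (2 * k) := Or.inl ⟨h1, rfl⟩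
      obtain ⟨a1, a2, -⟩ := ari hn hk h0
      exact ⟨_, h0, (cen_even (by omega) a2).2 h2⟩
    · have hk0 : 1 ≤ k := by
        have h3 : 3 * Fintype.card V ≤ 6 * k ^ 2 + 2 * k + 1 := hk.1
        rcases k with _ | k
        · simp at h3; omega
        · omega
      obtain ⟨m, rfl⟩ : ∃ m, k = m + 1 := ⟨k - 1, by omega⟩
      have h0 : Opt (Fintype.card V) (m + 1) (2 * m + 1) := Or.inr ⟨h1, by omega⟩
      obtain ⟨a1, a2, -⟩ := ari hn hk h0
      refine ⟨_, h0, (cen_odd (by omega) a2).2 ?_⟩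
      rw [show Fintype.card V + 1 - 2 * m = Fintype.card V + 3 - 2 * (m + 1) by omega]
      exact h2

end Pool.Agent.Results.MP_aedb6c_co.Maximisers
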